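import Pool.Agent.Helper1.SQ.Defs

/-! SQ-HP: higher prime powers (MP_36c81c_nt). -/

set_option autoImplicit false
open Finset

namespace Pool.Agent.Helper1.SQ

namespace HP

theorem card_mult (N H : ℕ) {d : ℕ} (hd : 0 < d) :
    (((Ioc N (N + H)).filter (fun m => d ∣ m)).card : ℝ) ≤ (H : ℝ) / d + 1 := by
  have h1 : ((Ioc N (N + H)).filter (fun m => d ∣ m)).card + N / d = (N + H) / d := by
    rw [← Nat.Ioc_filter_dvd_card_eq_div N d, ← Nat.Ioc_filter_dvd_card_eq_div (N + H) d,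
      ← card_union_of_disjoint]
    · congr 1
      ext x
      simp only [mem_union, mem_filter, mem_Ioc]
      constructor
      · rintro (⟨h, h'⟩ | ⟨h, h'⟩)
        · exact ⟨⟨by omega, h.2⟩, h'⟩
        · exact ⟨⟨h.1, by omega⟩, h'⟩
      · rintro ⟨h, h'⟩
        by_cases hx : x ≤ N
        · exact Or.inr ⟨⟨h.1, hx⟩, h'⟩
        · exact Or.inl ⟨⟨by omega, h.2⟩, h'⟩
    · rw [Finset.disjoint_left]
      intro x hx hx'
      simp only [mem_filter, mem_Ioc] at hx hx'
      omega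
  have h2 : (((Ioc N (N + H)).filter (fun m => d ∣ m)).card : ℝ) + ((N / d : ℕ) : ℝ) =
      (((N + H) / d : ℕ) : ℝ) := by exact_mod_cast h1
  have hd' : (0 : ℝ) < d := by exact_mod_cast hd
  have h3 : (((N + H) / d : ℕ) : ℝ) ≤ ((N : ℝ) + H) / d := by
    have := Nat.cast_div_le (α := ℝ) (m := N + H) (n := d)
    push_cast at this
    exact this
  have h4 : (N : ℝ) / d < ((N / d : ℕ) : ℝ) + 1 := by
    rw [div_lt_iff₀ hd']
    have h5 : N < (N / d + 1) * d := by
      have := Nat.lt_div_mul_add hd (a := N)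
      linarith [this]
    exact_mod_cast h5
  rw [add_div] at h3
  linarith

theorem fac_le {p m i Λ : ℕ} (hpi : 2 ^ i < p) (hi : 0 < i) (hm : 0 < m)
    (hmΛ : m < 2 ^ (Λ + 1)) : m.factorization p ≤ Λ / i := by
  rw [Nat.le_div_iff_mul_le hi]
  by_contra h
  push Not at h
  have h1 : p ^ m.factorization p ≤ m := Nat.le_of_dvd hm (Nat.ordProj_dvd m p)
  have h2 : (2 ^ i) ^ m.factorization p ≤ p ^ m.factorization p := Nat.pow_le_pow_left hpi.le _
  rw [← pow_mul] at h2
  have h3 : 2 ^ (Λ + 1) ≤ 2 ^ (i * m.factorization p) :=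
    Nat.pow_le_pow_right (by norm_num) (by rw [mul_comm]; exact h)
  omega

theorem geo {x : ℝ} (hx : 1 < x) (K : ℕ) :
    ∑ l ∈ range K, 1 / x ^ (l + 3) ≤ 1 / (x ^ 2 * (x - 1)) := by
  have h0 : 0 < x := by linarith
  have h1 : 0 < x - 1 := by linarith
  have key : ∑ l ∈ range K, 1 / x ^ (l + 3) = 1 / (x ^ 2 * (x - 1)) - 1 / (x ^ (K + 2) * (x - 1)) := by
    induction K with
    | zero => simp
    | succ K ih =>
      rw [sum_range_succ, ih]
      have e1 : x ^ (K + 1 + 2) = x ^ (K + 2) * x := by ring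
      rw [e1]
      have h2 : x ^ (K + 2) ≠ 0 := by positivity
      field_simp
      ring
  rw [key]
  have : 0 < 1 / (x ^ (K + 2) * (x - 1)) := by positivity
  linarith

theorem hpw_le (N H Λ a i p : ℕ) (hpi : 2 ^ i < p) (hi : 0 < i)
    (hNH : N + H < 2 ^ (Λ + 1)) :
    hpw N H a p ≤ ∑ l ∈ range (Λ / i - 2 + 1),
      ((cnt N H 1 a).filter (fun m => p ^ (l + 2) ∣ m)).card := by
  unfold hpw
  have h1 : ∀ m ∈ cnt N H 1 a, m.factorization p - 1 ≤
      ∑ l ∈ range (Λ / i - 2 + 1), if p ^ (l + 2) ∣ m then 1 else 0 := by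
    intro m hm
    have hm' := (mem_Ioc.1 (mem_filter.1 hm).1)
    have hm0 : 0 < m := by omega
    have hf := fac_le hpi hi hm0 (lt_of_le_of_lt hm'.2 hNH)
    rw [← card_filter]
    have h2 : range (m.factorization p - 1) ⊆
        (range (Λ / i - 2 + 1)).filter (fun l => p ^ (l + 2) ∣ m) := by
      intro l hl
      rw [mem_range] at hl
      rw [mem_filter, mem_range]
      refine ⟨by omega, ?_⟩
      exact (pow_dvd_pow p (by omega)).trans (Nat.ordProj_dvd m p)
    have h3 := card_le_card h2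
    rwa [card_range] at h3
  refine (sum_le_sum h1).trans (le_of_eq ?_)
  rw [sum_comm]
  refine sum_congr rfl fun l _ => ?_
  rw [card_filter]

end HP

open HP in
theorem hpb (hD : Disc) : HPb := by
  intro N H Λ a i ha hai hNH
  have hi : 0 < i := by omega
  set K : ℕ := Λ / i - 2 with hK
  have hH : (0 : ℝ) ≤ H := Nat.cast_nonneg _
  -- facts on the primes of the block
  have hP : ∀ p ∈ PB i (i + 1), p.Prime ∧ 2 ^ i < p := by
    intro p hp
    have h := mem_filter.1 hp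
    exact ⟨h.2, (mem_Ioc.1 h.1).1⟩
  have h16 : ∀ p ∈ PB i (i + 1), 16 < p := by
    intro p hp
    have h1 : 2 ^ 4 ≤ 2 ^ i := Nat.pow_le_pow_right (by norm_num) (by omega)
    have := (hP p hp).2
    omega
  -- the term `j = 2`
  have h2a : ∀ p ∈ PB i (i + 1),
      ((((cnt N H 1 a).filter (fun m => p ^ (0 + 2) ∣ m)).card : ℕ) : ℝ) ≤
        192 / 1001 * ((H : ℝ) / ((p : ℝ) * p)) + 8 := by
    intro p hp
    have hpp := (hP p hp).1
    have hcop : Nat.Coprime (p ^ 2) 30030 := by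
      apply Nat.Coprime.pow_left
      rw [Nat.Prime.coprime_iff_not_dvd hpp]
      intro hdvd
      have h30 : (30030 : ℕ) = 2 * 3 * 5 * 7 * 11 * 13 := by norm_num
      rw [h30] at hdvd
      have := h16 p hp
      simp only [hpp.dvd_mul] at hdvd
      rcases hdvd with ((((h | h) | h) | h) | h) | h <;>
        · have := Nat.le_of_dvd (by norm_num) h
          omega
    have h := hD N H (p ^ 2) (by have := hpp.pos; positivity) hcop
    have h' := (abs_le.1 h).2
    have hsub : ((cnt N H 1 a).filter (fun m => p ^ (0 + 2) ∣ m)).card ≤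
        ((Ioc N (N + H)).filter (fun m => p ^ 2 ∣ m ∧ Nat.Coprime m 30030)).card := by
      refine card_le_card fun m hm => ?_
      rw [mem_filter] at hm
      have hm1 := mem_filter.1 hm.1
      exact mem_filter.2 ⟨hm1.1, by simpa using hm.2, hm1.2.2.1⟩
    have hsub' : ((((cnt N H 1 a).filter (fun m => p ^ (0 + 2) ∣ m)).card : ℕ) : ℝ) ≤
        ((((Ioc N (N + H)).filter (fun m => p ^ 2 ∣ m ∧ Nat.Coprime m 30030)).card : ℕ) : ℝ) := by
      exact_mod_cast hsub
    have e : ((p ^ 2 : ℕ) : ℝ) = (p : ℝ) * p := by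
      push_cast
      ring
    rw [e] at h'
    linarith
  have h2b : ∀ p ∈ PB i (i + 1), ∀ l : ℕ,
      ((((cnt N H 1 a).filter (fun m => p ^ (l + 2) ∣ m)).card : ℕ) : ℝ) ≤
        (H : ℝ) / (p : ℝ) ^ (l + 2) + 1 := by
    intro p hp l
    have hpp := (hP p hp).1
    have hsub : ((cnt N H 1 a).filter (fun m => p ^ (l + 2) ∣ m)).card ≤
        ((Ioc N (N + H)).filter (fun m => p ^ (l + 2) ∣ m)).card := by
      refine card_le_card fun m hm => ?_
      rw [mem_filter] at hm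
      exact mem_filter.2 ⟨(mem_filter.1 hm.1).1, hm.2⟩
    have h := card_mult N H (d := p ^ (l + 2)) (by have := hpp.pos; positivity)
    have hsub' : ((((cnt N H 1 a).filter (fun m => p ^ (l + 2) ∣ m)).card : ℕ) : ℝ) ≤
        ((((Ioc N (N + H)).filter (fun m => p ^ (l + 2) ∣ m)).card : ℕ) : ℝ) := by
      exact_mod_cast hsub
    push_cast at h
    linarith
  -- inverse powers
  have hinv2 : ∀ p ∈ PB i (i + 1), (1 : ℝ) / ((p : ℝ) * p) ≤ 1 / p / 2 ^ i := by
    intro p hp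
    have h1 : ((2 : ℝ) ^ i) < p := by exact_mod_cast (hP p hp).2
    have h0 : (0 : ℝ) < 2 ^ i := by positivity
    rw [div_div]
    exact one_div_le_one_div_of_le (mul_pos (h0.trans h1) h0)
      (mul_le_mul_of_nonneg_left h1.le (by linarith))
  have hinv3 : ∀ p ∈ PB i (i + 1), (1 : ℝ) / ((p : ℝ) ^ 2 * (p - 1)) ≤ 1 / p / 4 ^ i := by
    intro p hp
    have h1 : ((2 : ℝ) ^ i) + 1 ≤ p := by exact_mod_cast (hP p hp).2
    have h0 : (0 : ℝ) < 2 ^ i := by positivity
    have e : (4 : ℝ) ^ i = 2 ^ i * 2 ^ i := by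
      rw [← mul_pow]
      norm_num
    rw [div_div, e]
    have hp0 : (0 : ℝ) < p := by linarith
    refine one_div_le_one_div_of_le (mul_pos hp0 (mul_pos h0 h0)) ?_
    have h3 : (2 : ℝ) ^ i * 2 ^ i ≤ p * (p - 1) :=
      mul_le_mul (by linarith) (by linarith) h0.le hp0.le
    calc (p : ℝ) * (2 ^ i * 2 ^ i) ≤ p * (p * (p - 1)) := mul_le_mul_of_nonneg_left h3 hp0.le
      _ = (p : ℝ) ^ 2 * (p - 1) := by ring
  -- the terms `j ≥ 3`
  have h3 : ∀ p ∈ PB i (i + 1),
      ∑ l ∈ range K, ((((cnt N H 1 a).filter (fun m => p ^ (l + 1 + 2) ∣ m)).card : ℕ) : ℝ) ≤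
        (H : ℝ) * (1 / p / 4 ^ i) + K := by
    intro p hp
    have hp1 : (1 : ℝ) < p := by exact_mod_cast (hP p hp).1.one_lt
    calc ∑ l ∈ range K, ((((cnt N H 1 a).filter (fun m => p ^ (l + 1 + 2) ∣ m)).card : ℕ) : ℝ)
        ≤ ∑ l ∈ range K, ((H : ℝ) / (p : ℝ) ^ (l + 1 + 2) + 1) :=
          sum_le_sum fun l _ => h2b p hp (l + 1)
      _ = (H : ℝ) * ∑ l ∈ range K, 1 / (p : ℝ) ^ (l + 3) + K := by
          rw [sum_add_distrib, mul_sum]
          congr 1
          · exact sum_congr rfl fun l _ => by rw [mul_one_div]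
          · simp
      _ ≤ (H : ℝ) * (1 / p / 4 ^ i) + K := by
          have := mul_le_mul_of_nonneg_left ((geo hp1 K).trans (hinv3 p hp)) hH
          linarith
  -- one prime
  have h4 : ∀ p ∈ PB i (i + 1), (hpw N H a p : ℝ) ≤
      ((((cnt N H 1 a).filter (fun m => p ^ (0 + 2) ∣ m)).card : ℕ) : ℝ) +
        ((H : ℝ) * (1 / p / 4 ^ i) + K) := by
    intro p hp
    have h := hpw_le N H Λ a i p (hP p hp).2 hi hNH
    rw [← hK, sum_range_succ'] at h
    have h' : (hpw N H a p : ℝ) ≤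
        ∑ l ∈ range K, ((((cnt N H 1 a).filter (fun m => p ^ (l + 1 + 2) ∣ m)).card : ℕ) : ℝ) +
        ((((cnt N H 1 a).filter (fun m => p ^ (0 + 2) ∣ m)).card : ℕ) : ℝ) := by
      exact_mod_cast h
    linarith [h3 p hp]
  have hsm : ∑ p ∈ PB i (i + 1), (1 : ℝ) / p = sm i (i + 1) := rfl
  refine (sum_le_sum h4).trans ?_
  rw [sum_add_distrib]
  refine add_le_add (le_min ?_ ?_) ?_
  · calc ∑ p ∈ PB i (i + 1), ((((cnt N H 1 a).filter (fun m => p ^ (0 + 2) ∣ m)).card : ℕ) : ℝ)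
        ≤ ∑ p ∈ PB i (i + 1), (192 / 1001 * (H : ℝ) / 2 ^ i * (1 / p) + 8) := by
          refine sum_le_sum fun p hp => (h2a p hp).trans ?_
          have := mul_le_mul_of_nonneg_left (hinv2 p hp)
            (show (0 : ℝ) ≤ 192 / 1001 * H by positivity)
          have e1 : 192 / 1001 * ((H : ℝ) / ((p : ℝ) * p)) = 192 / 1001 * H * (1 / ((p : ℝ) * p)) := by
            ring
          have e2 : 192 / 1001 * (H : ℝ) / 2 ^ i * (1 / p) = 192 / 1001 * H * (1 / p / 2 ^ i) := by
            ring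
          rw [e1, e2]
          linarith
      _ = 192 / 1001 * (H : ℝ) * sm i (i + 1) / 2 ^ i + 8 * ((PB i (i + 1)).card : ℝ) := by
          rw [sum_add_distrib, ← mul_sum, hsm, sum_const, nsmul_eq_mul]
          ring
  · calc ∑ p ∈ PB i (i + 1), ((((cnt N H 1 a).filter (fun m => p ^ (0 + 2) ∣ m)).card : ℕ) : ℝ)
        ≤ ∑ p ∈ PB i (i + 1), ((H : ℝ) / 2 ^ i * (1 / p) + 1) := by
          refine sum_le_sum fun p hp => (h2b p hp 0).trans ?_
          have := mul_le_mul_of_nonneg_left (hinv2 p hp) hH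
          have e1 : (H : ℝ) / (p : ℝ) ^ (0 + 2) = H * (1 / ((p : ℝ) * p)) := by
            rw [zero_add, pow_two]
            ring
          have e2 : (H : ℝ) / 2 ^ i * (1 / p) = H * (1 / p / 2 ^ i) := by ring
          rw [e1, e2]
          linarith
      _ = (H : ℝ) * sm i (i + 1) / 2 ^ i + ((PB i (i + 1)).card : ℝ) := by
          rw [sum_add_distrib, ← mul_sum, hsm, sum_const, nsmul_eq_mul]
          ring
  · rw [sum_add_distrib, sum_const, nsmul_eq_mul]
    refine add_le_add (le_of_eq ?_) le_rfl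
    rw [← hsm, mul_sum, sum_div]
    exact sum_congr rfl fun p _ => by ring

end Pool.Agent.Helper1.SQ
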